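import Mathlib
import Pool.Agent.Q278.SJ2

/-! MP_6c9e22_co: the chromatic numbers of `J±(n,2,-1)` and `K±(n,2,-1)` differ for infinitely
many `n`. -/

namespace Pool.Agent.Results.MP_6c9e22_co.TwoMinusOne

open Finset

/-- `V_{n,k}`: the vectors of `{-1,0,1}^n` with exactly `k` nonzero coordinates. -/
def Vert (n k : ℕ) : Type := {v : Fin n → ℤ //
    (∀ i, v i = -1 ∨ v i = 0 ∨ v i = 1) ∧ (univ.filter fun i => v i ≠ 0).card = k}

/-- `J±(n,k,t)`: distinct vertices are adjacent iff their scalar product is `t`. -/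
def J (n k : ℕ) (t : ℤ) : SimpleGraph (Vert n k) where
  Adj u v := u ≠ v ∧ ∑ i, u.1 i * v.1 i = t
  symm := ⟨by
    rintro u v ⟨h1, h2⟩
    refine ⟨h1.symm, ?_⟩
    rw [← h2]
    exact Finset.sum_congr rfl fun i _ => mul_comm _ _⟩
  loopless := ⟨fun u h => h.1 rfl⟩

/-- `K±(n,k,t)`: distinct vertices are adjacent iff their scalar product is at most `t`. -/
def K (n k : ℕ) (t : ℤ) : SimpleGraph (Vert n k) where
  Adj u v := u ≠ v ∧ ∑ i, u.1 i * v.1 i ≤ t
  symm := ⟨by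
    rintro u v ⟨h1, h2⟩
    refine ⟨h1.symm, le_trans (le_of_eq ?_) h2⟩
    exact Finset.sum_congr rfl fun i _ => mul_comm _ _⟩
  loopless := ⟨fun u h => h.1 rfl⟩

theorem main (a : ℕ) (ha : 14 ≤ a) :
    (J ((2 * a).choose a) 2 (-1)).chromaticNumber ≤ ((2 * a + 1 : ℕ) : ℕ∞) ∧
      ((2 * a + 1 : ℕ) : ℕ∞) < (K ((2 * a).choose a) 2 (-1)).chromaticNumber := by
  constructor
  · rw [SimpleGraph.chromaticNumber_le_iff_colorable]
    obtain ⟨col, hcol⟩ := Q278.SJ2.J_colouring a ((2 * a).choose a) ⟨0, by omega⟩ rfl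
    refine ⟨SimpleGraph.Coloring.mk (fun v => col ⟨v.1, v.2⟩) ?_⟩
    intro u v huv
    exact hcol ⟨u.1, u.2⟩ ⟨v.1, v.2⟩ huv.2
  · rw [← not_le, SimpleGraph.chromaticNumber_le_iff_colorable]
    rintro ⟨col⟩
    have h1 := Q278.SJ2.K_bound (n := (2 * a).choose a) (c := 2 * a + 1)
      (fun v => col ⟨v.1, v.2⟩) (by
        intro u v huv hle
        exact col.valid (v := ⟨u.1, u.2⟩) (w := ⟨v.1, v.2⟩)
          ⟨fun he => huv (Subtype.ext (congrArg Subtype.val he)), hle⟩)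
    have h2 := Q278.SJ2.numeric a ha
    omega

/-- The two chromatic numbers differ for `k = 2`, `t = -1` and `n = C(2a,a)`, `a ≥ 14`; in
particular for infinitely many `n`, and the answer to the question is negative. -/
theorem result :
    (∀ a : ℕ, 14 ≤ a → (J ((2 * a).choose a) 2 (-1)).chromaticNumber <
      (K ((2 * a).choose a) 2 (-1)).chromaticNumber) ∧
    (∀ N : ℕ, ∃ n ≥ N, (J n 2 (-1)).chromaticNumber < (K n 2 (-1)).chromaticNumber) ∧
    ¬ (∀ k : ℕ, 1 ≤ k → ∀ t : ℤ, -(k : ℤ) ≤ t → t < 0 →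
      ∃ n0 : ℕ, ∀ n ≥ n0, k ≤ n → (J n k t).chromaticNumber = (K n k t).chromaticNumber) := by
  have h1 : ∀ a : ℕ, 14 ≤ a → (J ((2 * a).choose a) 2 (-1)).chromaticNumber <
      (K ((2 * a).choose a) 2 (-1)).chromaticNumber := fun a ha =>
    lt_of_le_of_lt (main a ha).1 (main a ha).2
  have h2 : ∀ N : ℕ, ∃ n ≥ N, (J n 2 (-1)).chromaticNumber < (K n 2 (-1)).chromaticNumber := by
    intro N
    refine ⟨(2 * (N + 14)).choose (N + 14), ?_, h1 (N + 14) (by omega)⟩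
    have h3 := Nat.four_pow_lt_mul_centralBinom (N + 14) (by omega)
    rw [Nat.centralBinom] at h3
    have h4 : (N + 14) * (N + 14) ≤ 4 ^ (N + 14) := by
      have h5 : N + 14 < 2 ^ (N + 14) := Nat.lt_two_pow_self
      calc (N + 14) * (N + 14) ≤ 2 ^ (N + 14) * 2 ^ (N + 14) := Nat.mul_le_mul h5.le h5.le
        _ = 4 ^ (N + 14) := by rw [← mul_pow]; norm_num
    have h6 : (N + 14) * (N + 14) < (N + 14) * (2 * (N + 14)).choose (N + 14) :=
      lt_of_le_of_lt h4 h3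
    have h7 := Nat.lt_of_mul_lt_mul_left h6
    omega
  refine ⟨h1, h2, ?_⟩
  intro h
  obtain ⟨n0, h3⟩ := h 2 (by norm_num) (-1) (by norm_num) (by norm_num)
  obtain ⟨n, hn, h4⟩ := h2 (max n0 2)
  exact h4.ne (h3 n ((le_max_left _ _).trans hn) ((le_max_right _ _).trans hn))

end Pool.Agent.Results.MP_6c9e22_co.TwoMinusOne
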